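import Pool.Agent.TH87.FDC.Iso
import Pool.Agent.Results.MP_6985d1_al.ExactGrowth

set_option autoImplicit false

/-! Property A for Grigorchuk's group. -/

namespace Pool.Agent.TH87.FDC

open Filter Topology

/-- Yu's Property A for a countable group with a metric. -/
def PropertyA {G : Type} (m : MetricSpace G) : Prop :=
  ∀ R : ℝ, 0 < R → ∀ ε : ℝ, 0 < ε → ∃ S : ℝ, 0 < S ∧ ∃ ξ : G → lp (fun _ : G => ℝ) 1,
    (∀ g, ‖ξ g‖ = 1) ∧ (∀ g x, ξ g x ≠ 0 → m.dist x g < S) ∧
    ∀ g h, m.dist g h ≤ R → ‖ξ g - ξ h‖ < ε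

section folner

variable {G : Type} [Group G]

omit [Group G] in
lemma norm_ls (f : lp (fun _ : G => ℝ) 1) (T : Finset G) (hT : ∀ x, x ∉ T → f x = 0) :
    ‖f‖ = ∑ x ∈ T, |f x| := by
  rw [lp.norm_eq_tsum_rpow (by simp)]
  simp only [ENNReal.toReal_one, Real.rpow_one, div_one, Real.norm_eq_abs]
  refine tsum_eq_sum fun x hx => ?_
  rw [hT x hx, abs_zero]

omit [Group G] in
open Classical in
lemma mem_ls (F : Finset G) (c : ℝ) : Memℓp (fun x => if x ∈ F then c else (0 : ℝ)) 1 := by
  refine memℓp_gen ?_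
  refine summable_of_ne_finset_zero (s := F) fun x hx => ?_
  rw [if_neg hx]
  simp

open Classical in
/-- The normalized indicator function of a finite set. -/
noncomputable def xi (F : Finset G) (c : ℝ) : lp (fun _ : G => ℝ) 1 :=
  ⟨fun x => if x ∈ F then c else (0 : ℝ), mem_ls F c⟩

omit [Group G] in
open Classical in
lemma xi_apply (F : Finset G) (c : ℝ) (x : G) : xi F c x = if x ∈ F then c else 0 := rfl

theorem propertyA_of_folner {m : MetricSpace G} (hm : ProperLeftInvariant m)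
    (hF : ∀ K : Set G, K.Finite → ∀ ε : ℝ, 0 < ε → ∃ F : Finset G, F.Nonempty ∧
      ∀ k ∈ K, (({x | x ∈ F ∧ k * x ∉ F} : Set G).ncard : ℝ) ≤ ε * (F.card : ℝ)) :
    PropertyA m := by
  classical
  intro R hR ε hε
  obtain ⟨F, hFne, hF⟩ := hF _ (hm.finite R) (ε / 3) (by positivity)
  have hFpos : 0 < (F.card : ℝ) := by exact_mod_cast Finset.card_pos.2 hFne
  set c : ℝ := 1 / (F.card : ℝ) with hc
  have hcpos : 0 < c := by positivity
  have hcF : c * (F.card : ℝ) = 1 := by rw [hc]; field_simp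
  obtain ⟨S, hS0, hS⟩ : ∃ S : ℝ, 0 < S ∧ ∀ x ∈ F, m.dist 1 x < S := by
    obtain ⟨S, hS⟩ := ((F.finite_toSet).image (fun g => m.dist 1 g)).bddAbove
    exact ⟨max S 0 + 1, by positivity,
      fun g hg => lt_of_le_of_lt ((hS ⟨g, hg, rfl⟩).trans (le_max_left _ _)) (lt_add_one _)⟩
  let T : G → Finset G := fun g => F.image (fun y => g * y)
  have hTmem : ∀ g x, x ∈ T g ↔ g⁻¹ * x ∈ F := by
    intro g x
    constructor
    · intro h
      obtain ⟨y, hy, rfl⟩ := Finset.mem_image.1 h
      rwa [inv_mul_cancel_left]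
    · intro h
      exact Finset.mem_image.2 ⟨g⁻¹ * x, h, mul_inv_cancel_left g x⟩
  have hTcard : ∀ g, (T g).card = F.card := fun g =>
    Finset.card_image_of_injective _ (mul_right_injective g)
  refine ⟨S, hS0, fun g => xi (T g) c, fun g => ?_, fun g x hx => ?_, fun g h hgh => ?_⟩
  · rw [norm_ls _ (T g) (fun x hx => by rw [xi_apply, if_neg hx])]
    rw [Finset.sum_congr rfl (g := fun _ => c) (fun x hx => by
      rw [xi_apply, if_pos hx, abs_of_pos hcpos])]
    rw [Finset.sum_const, hTcard, nsmul_eq_mul, mul_comm, hcF]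
  · have h1 : x ∈ T g := by
      by_contra hne
      apply hx
      change xi (T g) c x = 0
      rw [xi_apply, if_neg hne]
    have h2 := hS _ ((hTmem g x).1 h1)
    have h3 := hm.inv g 1 (g⁻¹ * x)
    rw [mul_one, mul_inv_cancel_left] at h3
    rw [m.dist_comm, h3]
    exact h2
  · have hdiff : ∀ g h : G, m.dist g h ≤ R → ((T g \ T h).card : ℝ) ≤ ε / 3 * (F.card : ℝ) := by
      intro g h hgh
      have hk : h⁻¹ * g ∈ {x : G | m.dist 1 x ≤ R} := by
        have h3 := hm.inv h⁻¹ h g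
        rw [inv_mul_cancel] at h3
        change m.dist 1 (h⁻¹ * g) ≤ R
        rw [h3, m.dist_comm]
        exact hgh
      refine le_trans ?_ (hF _ hk)
      have h4 : (T g \ T h).card = ((fun x => g⁻¹ * x) '' (T g \ T h : Finset G)).ncard := by
        rw [Set.ncard_image_of_injective _ (mul_right_injective g⁻¹), Set.ncard_coe_finset]
      rw [h4]
      have h5 : ((fun x => g⁻¹ * x) '' (T g \ T h : Finset G)) ⊆
          {x | x ∈ F ∧ h⁻¹ * g * x ∉ F} := by
        rintro y ⟨x, hx, rfl⟩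
        rw [Finset.mem_coe, Finset.mem_sdiff, hTmem, hTmem] at hx
        refine ⟨hx.1, ?_⟩
        simpa [mul_assoc] using hx.2
      exact_mod_cast Set.ncard_le_ncard h5 (F.finite_toSet.subset fun x hx => hx.1)
    have h1 := hdiff g h hgh
    have h2 := hdiff h g (by rw [m.dist_comm]; exact hgh)
    have h3 : ∀ x, (xi (T g) c - xi (T h) c) x =
        (if x ∈ T g then c else 0) - (if x ∈ T h then c else 0) := fun x => rfl
    rw [norm_ls _ (T g \ T h ∪ T h \ T g) (fun x hx => by
      rw [h3]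
      rw [Finset.mem_union, Finset.mem_sdiff, Finset.mem_sdiff] at hx
      by_cases hg : x ∈ T g <;> by_cases hh : x ∈ T h
      · rw [if_pos hg, if_pos hh, sub_self]
      · exact absurd (Or.inl ⟨hg, hh⟩) hx
      · exact absurd (Or.inr ⟨hh, hg⟩) hx
      · rw [if_neg hg, if_neg hh, sub_self])]
    have h4 : ∑ x ∈ T g \ T h ∪ T h \ T g, |(xi (T g) c - xi (T h) c) x| ≤
        ∑ x ∈ T g \ T h ∪ T h \ T g, c := by
      refine Finset.sum_le_sum fun x hx => ?_
      rw [h3]
      by_cases hg : x ∈ T g <;> by_cases hh : x ∈ T h <;> simp [hg, hh, abs_of_pos hcpos, hcpos.le]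
    refine lt_of_le_of_lt h4 ?_
    rw [Finset.sum_const, nsmul_eq_mul]
    have h5 : ((T g \ T h ∪ T h \ T g).card : ℝ) ≤ (T g \ T h).card + (T h \ T g).card := by
      exact_mod_cast Finset.card_union_le _ _
    calc ((T g \ T h ∪ T h \ T g).card : ℝ) * c ≤ (ε / 3 * F.card + ε / 3 * F.card) * c := by
          refine mul_le_mul_of_nonneg_right (h5.trans (add_le_add h1 h2)) hcpos.le
      _ = 2 * ε / 3 * (c * F.card) := by ring
      _ = 2 * ε / 3 := by rw [hcF, mul_one]
      _ < ε := by linarith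

end folner

section growth

open Pool.Agent.Results.MP_03d093_al.SphereBall Pool.Agent.H776R2.Grig

lemma len_mul_le (g h : SB.G) : len (g * h) ≤ len g + len h := by
  obtain ⟨v, hv, hv'⟩ := exists_geod g
  obtain ⟨w, hw, hw'⟩ := exists_geod h
  have := len_le (v ++ w)
  rw [evG_append, hv', hw', List.length_append, hv, hw] at this
  exact this

lemma ball_eq_ncard (n : ℕ) : ball n = ({g : SB.G | len g ≤ n}).ncard := rfl

lemma ball_pos (n : ℕ) : 0 < ball n := by
  rw [ball_eq_ncard, Set.ncard_pos (ball_finite n)]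
  refine ⟨evG [], ?_⟩
  have := len_le []
  simp only [List.length_nil] at this
  change len (evG []) ≤ n
  omega

lemma exists_small_growth (R : ℕ) (ε : ℝ) (hε : 0 < ε) :
    ∃ n, (ball (n + R) : ℝ) ≤ (1 + ε) * (ball n : ℝ) := by
  by_contra hcon
  push Not at hcon
  obtain ⟨-, ⟨hα0, hα1⟩, -, C, hC, hup⟩ := Pool.Agent.Results.MP_6985d1_al.ExactGrowth.result
  set α := alpha with hα
  have hα : α < 1 := by linarith
  have hR : R ≠ 0 := by
    rintro rfl
    have h1 := hcon 0
    have h2 : (0 : ℝ) < ball 0 := by exact_mod_cast ball_pos 0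
    rw [Nat.add_zero] at h1
    nlinarith
  have hlow : ∀ j : ℕ, (1 + ε) ^ j ≤ (ball (j * R) : ℝ) := by
    intro j
    induction j with
    | zero =>
      rw [pow_zero, zero_mul]
      exact_mod_cast ball_pos 0
    | succ j ih =>
      have h1 := hcon (j * R)
      have h2 : (j + 1) * R = j * R + R := by ring
      rw [h2, pow_succ, mul_comm]
      refine le_trans ?_ h1.le
      exact mul_le_mul_of_nonneg_left ih (by positivity)
  have hlog : 0 < Real.log (1 + ε) := Real.log_pos (by linarith)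
  have hCR : (0 : ℝ) < C * R := by
    have h1 : (0 : ℝ) < C := by exact_mod_cast hC
    have h2 : (0 : ℝ) < R := by exact_mod_cast Nat.pos_of_ne_zero hR
    positivity
  -- the upper bound
  have hup' : ∀ j : ℕ, (j : ℝ) * Real.log (1 + ε) ≤ ((C * R : ℝ) * j) ^ α := by
    intro j
    have h1 : (ball (j * R) : ℝ) ≤ Real.exp (((C * (j * R) : ℕ) : ℝ) ^ α) := by
      have h2 : (ball (j * R) : ℝ) ≤ (⌊Real.exp (((C * (j * R) : ℕ) : ℝ) ^ α)⌋₊ : ℝ) := by
        exact_mod_cast hup (j * R)
      exact h2.trans (Nat.floor_le (Real.exp_pos _).le)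
    have h2 := (hlow j).trans h1
    have h3 := Real.log_le_log (by positivity) h2
    rw [Real.log_pow, Real.log_exp] at h3
    refine h3.trans (le_of_eq ?_)
    congr 1
    push_cast
    ring
  have hlim : Tendsto (fun y : ℝ => y ^ (-(1 - α))) atTop (𝓝 0) :=
    tendsto_rpow_neg_atTop (by linarith)
  have hev := hlim.eventually (gt_mem_nhds (show (0 : ℝ) < Real.log (1 + ε) / (C * R) by positivity))
  have hseq : Tendsto (fun j : ℕ => (C * R : ℝ) * j) atTop atTop :=
    Tendsto.const_mul_atTop hCR tendsto_natCast_atTop_atTop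
  obtain ⟨j, hj, hj1⟩ := ((hseq.eventually hev).and (eventually_ge_atTop 1)).exists
  have hjpos : (0 : ℝ) < j := by exact_mod_cast hj1
  have hy : (0 : ℝ) < (C * R : ℝ) * j := by positivity
  have h1 := hup' j
  have h2 : ((C * R : ℝ) * j) ^ α = ((C * R : ℝ) * j) * ((C * R : ℝ) * j) ^ (-(1 - α)) := by
    nth_rewrite 2 [← Real.rpow_one ((C * R : ℝ) * j)]
    rw [← Real.rpow_add hy]
    congr 1
    ring
  rw [h2] at h1
  have h3 : ((C * R : ℝ) * j) * ((C * R : ℝ) * j) ^ (-(1 - α)) <
      ((C * R : ℝ) * j) * (Real.log (1 + ε) / (C * R)) := mul_lt_mul_of_pos_left hj hy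
  have h4 : ((C * R : ℝ) * j) * (Real.log (1 + ε) / (C * R)) = j * Real.log (1 + ε) := by
    field_simp
  linarith

/-- Grigorchuk's group is amenable. -/
theorem folner_G : ∀ K : Set SB.G, K.Finite → ∀ ε : ℝ, 0 < ε → ∃ F : Finset SB.G, F.Nonempty ∧
      ∀ k ∈ K, (({x | x ∈ F ∧ k * x ∉ F} : Set SB.G).ncard : ℝ) ≤ ε * (F.card : ℝ) := by
  intro K hK ε hε
  obtain ⟨R, hR⟩ : ∃ R : ℕ, ∀ k ∈ K, len k ≤ R := by
    obtain ⟨R, hR⟩ := (hK.image len).bddAbove
    exact ⟨R, fun k hk => hR ⟨k, hk, rfl⟩⟩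
  obtain ⟨n, hn⟩ := exists_small_growth R ε hε
  refine ⟨(ball_finite n).toFinset, ?_, fun k hk => ?_⟩
  · have := ball_pos n
    rw [ball_eq_ncard, Set.ncard_pos (ball_finite n)] at this
    simpa using this
  · have h1 : ((fun x => k * x) '' ({x | x ∈ (ball_finite n).toFinset ∧
        k * x ∉ (ball_finite n).toFinset} : Set SB.G)) ⊆
        ({g : SB.G | len g ≤ n + R} \ {g : SB.G | len g ≤ n}) := by
      rintro y ⟨x, ⟨hx1, hx2⟩, rfl⟩
      rw [Set.Finite.mem_toFinset] at hx1 hx2
      refine ⟨?_, hx2⟩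
      have h2 := len_mul_le k x
      have h3 := hR k hk
      have h4 : len x ≤ n := hx1
      change len (k * x) ≤ n + R
      omega
    have h2 := Set.ncard_le_ncard h1 ((ball_finite (n + R)).diff)
    rw [Set.ncard_image_of_injective _ (mul_right_injective k)] at h2
    have h3 : ({g : SB.G | len g ≤ n + R} \ {g : SB.G | len g ≤ n}).ncard + ball n =
        ball (n + R) := by
      rw [ball_eq_ncard, ball_eq_ncard]
      refine Set.ncard_diff_add_ncard_of_subset (fun g hg => ?_) (ball_finite (n + R))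
      exact le_trans (show len g ≤ n from hg) (Nat.le_add_right n R)
    have h4 : ((ball_finite n).toFinset.card : ℝ) = ball n := by
      rw [ball_eq_ncard, Set.ncard_eq_toFinset_card _ (ball_finite n)]
    rw [h4]
    have h5 : ((({g : SB.G | len g ≤ n + R} \ {g : SB.G | len g ≤ n}).ncard : ℕ) : ℝ) + ball n =
        ball (n + R) := by exact_mod_cast h3
    have h6 : ((({x | x ∈ (ball_finite n).toFinset ∧
        k * x ∉ (ball_finite n).toFinset} : Set SB.G)).ncard : ℝ) ≤
        ((({g : SB.G | len g ≤ n + R} \ {g : SB.G | len g ≤ n}).ncard : ℕ) : ℝ) := by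
      exact_mod_cast h2
    linarith

end growth

end Pool.Agent.TH87.FDC
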