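import Pool.Agent.TH87.FDC.Word
import Pool.Agent.H812R5.G
import Pool.Agent.H812R5.GE

set_option autoImplicit false

namespace Pool.Agent.TH87.FDC

open H812R5 H812R5.G

section

variable {a b c d : Equiv.Perm Seq}

/-- The finitely generated subgroup containing its own square. -/
abbrev KG (a b d : Equiv.Perm Seq) : Subgroup (Equiv.Perm Seq) :=
  Subgroup.closure (U0 a b d : Set (Equiv.Perm Seq))

lemma pr_mem (hG : IsGrig a b c d) {x y : Equiv.Perm Seq} (hx : x ∈ KG a b d)
    (hy : y ∈ KG a b d) : pr x y ∈ KG a b d := by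
  have h1 := mul_mem (psi_closure hG x hx).1 (psi_closure hG y hy).2
  rwa [psi0_apply, psi1_apply, pr_mul, mul_one, one_mul] at h1

/-- The embedding of the square. -/
def sqK (hG : IsGrig a b c d) : KG a b d × KG a b d →* KG a b d where
  toFun p := ⟨pr p.1 p.2, pr_mem hG p.1.2 p.2.2⟩
  map_one' := Subtype.ext pr_one
  map_mul' p q := Subtype.ext (pr_mul _ _ _ _).symm

lemma sqK_inj (hG : IsGrig a b c d) : Function.Injective (sqK hG) := by
  intro p q h
  have h1 : pr (p.1 : Equiv.Perm Seq) p.2 = pr (q.1 : Equiv.Perm Seq) q.2 := congrArg Subtype.val h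
  obtain ⟨h2, h3⟩ := pr_inj h1
  exact Prod.ext (Subtype.ext h2) (Subtype.ext h3)

lemma KG_infinite (hG : IsGrig a b c d) : Infinite (KG a b d) := by
  by_contra hfin
  rw [not_infinite_iff_finite] at hfin
  have h1 : (KG a b d : Set (Equiv.Perm Seq)).Finite := hfin
  have h2 : ∀ k : ℕ, 2 ^ 2 ^ k ≤ (KG a b d : Set (Equiv.Perm Seq)).ncard := fun k =>
    (growth hG k).trans (Set.ncard_le_ncard (fun x hx => words_closure hx) h1)
  have h3 := h2 ((KG a b d : Set (Equiv.Perm Seq)).ncard)
  have h4 : ∀ n : ℕ, n < 2 ^ 2 ^ n := fun n =>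
    (Nat.lt_two_pow_self).trans (Nat.lt_two_pow_self)
  exact absurd h3 (not_le.2 (h4 _))

instance KG_fg : Group.FG (KG a b d) :=
  (Group.fg_iff_subgroup_fg _).2 ⟨U0 a b d, rfl⟩

/-- Grigorchuk's group does not have weak FDC. -/
theorem grig_not_weakFDC (hG : IsGrig a b c d)
    (m : MetricSpace (Subgroup.closure ({a, b, c, d} : Set (Equiv.Perm Seq))))
    (hm : ProperLeftInvariant m) :
    ¬ HasWeakFDC (MetricFamily.single (Subgroup.closure ({a, b, c, d} : Set (Equiv.Perm Seq))) m) := by
  have := KG_infinite hG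
  exact not_weakFDC_of_square hm (sqK hG) (sqK_inj hG)
    (Subgroup.inclusion closure_sub) (Subgroup.inclusion_injective _)

end

end Pool.Agent.TH87.FDC
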