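import Pool.Agent.TH87.FDC.Grig
import Pool.Agent.Results.MP_03d093_al.SphereBall

set_option autoImplicit false

/-!
The version of Grigorchuk's group acting on finite binary words contains the same subgroup.
-/

namespace Pool.Agent.TH87.FDC

open H812R5 H812R5.G

namespace SB
export Pool.Agent.Results.MP_03d093_al.SphereBall (a b c d G aFun bFun cFun dFun)
end SB

/-- The sequence starting with a given word. -/
def app : List Bool → Seq → Seq
  | [], u => u
  | x :: w, u => H812R5.cons x (app w u)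

lemma app_inj {w w' : List Bool} {u u' : Seq} (hl : w.length = w'.length)
    (h : app w u = app w' u') : w = w' := by
  induction w generalizing w' with
  | nil => exact (List.length_eq_zero_iff.1 hl.symm).symm
  | cons x w ih =>
    rcases w' with _ | ⟨y, w'⟩
    · simp at hl
    · have h1 : x = y := congrFun h 0
      have h2 : app w u = app w' u' := cons_inj (x := x) (by rw [app, app, ← h1] at h; exact h)
      rw [h1, ih (by simpa using hl) h2]

lemma exists_app (n : ℕ) (x : Seq) : ∃ w u, w.length = n ∧ x = app w u := by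
  induction n generalizing x with
  | zero => exact ⟨[], x, rfl, rfl⟩
  | succ n ih =>
    obtain ⟨w, u, h1, h2⟩ := ih (tl x)
    exact ⟨x 0 :: w, u, by simp [h1], by rw [app, ← h2, cons_eta]⟩

lemma app_apply {w : List Bool} {u u' : Seq} {n : ℕ} (h : n < w.length) :
    app w u n = app w u' n := by
  induction w generalizing n with
  | nil => simp at h
  | cons x w ih =>
    cases n with
    | zero => rfl
    | succ n => exact ih (by simpa using h)

/-- Pairs of compatible permutations. -/
def RelD : Subgroup (Equiv.Perm (List Bool) × Equiv.Perm Seq) where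
  carrier := {p | (∀ w, (p.1 w).length = w.length) ∧ ∀ w u, ∃ u', p.2 (app w u) = app (p.1 w) u'}
  mul_mem' := by
    rintro p q ⟨h1, h2⟩ ⟨h3, h4⟩
    refine ⟨fun w => ?_, fun w u => ?_⟩
    · change (p.1 (q.1 w)).length = w.length
      rw [h1, h3]
    · obtain ⟨u', h5⟩ := h4 w u
      obtain ⟨u'', h6⟩ := h2 (q.1 w) u'
      refine ⟨u'', ?_⟩
      change p.2 (q.2 (app w u)) = app (p.1 (q.1 w)) u''
      rw [h5, h6]
  one_mem' := ⟨fun _ => rfl, fun w u => ⟨u, rfl⟩⟩
  inv_mem' := by
    rintro p ⟨h1, h2⟩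
    have h3 : ∀ w, (p.1⁻¹ w).length = w.length := by
      intro w
      have := h1 (p.1⁻¹ w)
      have h0 : p.1 (p.1⁻¹ w) = w := p.1.apply_symm_apply w
      rw [h0] at this
      exact this.symm
    refine ⟨h3, fun w u => ?_⟩
    obtain ⟨w0, u0, h4, h5⟩ := exists_app w.length (p.2⁻¹ (app w u))
    obtain ⟨u', h6⟩ := h2 w0 u0
    have h0 : p.2 (p.2⁻¹ (app w u)) = app w u := p.2.apply_symm_apply _
    rw [← h5, h0] at h6
    have h7 : w = p.1 w0 := app_inj (by rw [h1, h4]) h6
    have h8 : p.1⁻¹ (p.1 w0) = w0 := p.1.symm_apply_apply _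
    refine ⟨u0, ?_⟩
    change p.2⁻¹ (app w u) = app (p.1⁻¹ w) u0
    rw [h5, h7, h8]

lemma relD_left {g : Equiv.Perm Seq} (h : ((1, g) : Equiv.Perm (List Bool) × Equiv.Perm Seq) ∈ RelD) :
    g = 1 := by
  refine Equiv.ext fun x => funext fun n => ?_
  obtain ⟨w, u, h1, h2⟩ := exists_app (n + 1) x
  obtain ⟨u', h3⟩ := h.2 w u
  have h3' : g (app w u) = app w u' := h3
  change g x n = x n
  rw [h2, h3']
  exact app_apply (by omega)

lemma relD_right {g : Equiv.Perm (List Bool)}
    (h : ((g, 1) : Equiv.Perm (List Bool) × Equiv.Perm Seq) ∈ RelD) : g = 1 := by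
  refine Equiv.ext fun w => ?_
  obtain ⟨u', h3⟩ := h.2 w (fun _ => false)
  exact (app_inj (h.1 w).symm h3).symm

section

variable {a b c d : Equiv.Perm Seq} (hG : IsGrig a b c d)

include hG

lemma rel_a : ((SB.a, a) : Equiv.Perm (List Bool) × Equiv.Perm Seq) ∈ RelD := by
  refine ⟨fun w => ?_, fun w u => ?_⟩
  · rcases w with _ | ⟨x, w⟩ <;> rfl
  · rcases w with _ | ⟨x, w⟩
    · exact ⟨a u, rfl⟩
    · refine ⟨u, ?_⟩
      cases x
      · exact hG.1 _
      · exact hG.2.1 _

omit hG in
lemma len_bcd (w : List Bool) : (SB.bFun w).length = w.length ∧ (SB.cFun w).length = w.length ∧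
    (SB.dFun w).length = w.length := by
  have ha : ∀ w : List Bool, (SB.aFun w).length = w.length := by
    intro w; rcases w with _ | ⟨x, w⟩ <;> rfl
  induction w with
  | nil =>
    simp [Pool.Agent.Results.MP_03d093_al.SphereBall.bFun,
      Pool.Agent.Results.MP_03d093_al.SphereBall.cFun,
      Pool.Agent.Results.MP_03d093_al.SphereBall.dFun]
  | cons x w ih =>
    cases x <;> simp [Pool.Agent.Results.MP_03d093_al.SphereBall.bFun,
      Pool.Agent.Results.MP_03d093_al.SphereBall.cFun,
      Pool.Agent.Results.MP_03d093_al.SphereBall.dFun, ih, ha]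

lemma rel_bcd (w : List Bool) (u : Seq) : (∃ u', b (app w u) = app (SB.bFun w) u') ∧
    (∃ u', c (app w u) = app (SB.cFun w) u') ∧ ∃ u', d (app w u) = app (SB.dFun w) u' := by
  have ha := (rel_a hG).2
  induction w with
  | nil =>
    refine ⟨⟨b u, ?_⟩, ⟨c u, ?_⟩, ⟨d u, ?_⟩⟩ <;>
    simp [Pool.Agent.Results.MP_03d093_al.SphereBall.bFun,
      Pool.Agent.Results.MP_03d093_al.SphereBall.cFun,
      Pool.Agent.Results.MP_03d093_al.SphereBall.dFun, app]
  | cons x w ih =>
    obtain ⟨⟨u1, h1⟩, ⟨u2, h2⟩, ⟨u3, h3⟩⟩ := ih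
    obtain ⟨u4, h4⟩ := ha w u
    have h4' : a (app w u) = app (SB.aFun w) u4 := h4
    obtain ⟨-, -, g1, g2, g3, g4, g5, g6⟩ := hG
    cases x
    · refine ⟨⟨u4, ?_⟩, ⟨u4, ?_⟩, ⟨u, ?_⟩⟩
      · rw [app, g1, h4']
        simp [Pool.Agent.Results.MP_03d093_al.SphereBall.bFun, app]
      · rw [app, g3, h4']
        simp [Pool.Agent.Results.MP_03d093_al.SphereBall.cFun, app]
      · rw [app, g5]
        simp [Pool.Agent.Results.MP_03d093_al.SphereBall.dFun, app]
    · refine ⟨⟨u2, ?_⟩, ⟨u3, ?_⟩, ⟨u1, ?_⟩⟩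
      · rw [app, g2, h2]
        simp [Pool.Agent.Results.MP_03d093_al.SphereBall.bFun, app]
      · rw [app, g4, h3]
        simp [Pool.Agent.Results.MP_03d093_al.SphereBall.cFun, app]
      · rw [app, g6, h1]
        simp [Pool.Agent.Results.MP_03d093_al.SphereBall.dFun, app]

/-- The graph of the isomorphism. -/
def DD (a b c d : Equiv.Perm Seq) : Subgroup (Equiv.Perm (List Bool) × Equiv.Perm Seq) :=
  Subgroup.closure {(SB.a, a), (SB.b, b), (SB.c, c), (SB.d, d)}

lemma DD_le : DD a b c d ≤ RelD := by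
  rw [DD, Subgroup.closure_le]
  rintro p (rfl | rfl | rfl | rfl)
  · exact rel_a hG
  · exact ⟨fun w => (len_bcd w).1, fun w u => (rel_bcd hG w u).1⟩
  · exact ⟨fun w => (len_bcd w).2.1, fun w u => (rel_bcd hG w u).2.1⟩
  · exact ⟨fun w => (len_bcd w).2.2, fun w u => (rel_bcd hG w u).2.2⟩

/-- Grigorchuk's group acting on sequences embeds in Grigorchuk's group acting on words. -/
theorem exists_iso : ∃ ι : Subgroup.closure ({a, b, c, d} : Set (Equiv.Perm Seq)) →* SB.G,
    Function.Injective ι := by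
  have hle := DD_le hG
  -- projections
  have hfst : ∀ p ∈ DD a b c d, p.1 ∈ SB.G := by
    have : DD a b c d ≤ SB.G.comap (MonoidHom.fst _ _) := by
      rw [DD, Subgroup.closure_le]
      rintro p (rfl | rfl | rfl | rfl) <;> exact Subgroup.subset_closure (by simp)
    exact fun p hp => this hp
  have hsnd : (DD a b c d).map (MonoidHom.snd _ _) = Subgroup.closure {a, b, c, d} := by
    rw [DD, MonoidHom.map_closure]
    congr 1
    simp [Set.image_insert_eq]
  have hsnd' : ∀ p : DD a b c d, p.1.2 ∈ Subgroup.closure ({a, b, c, d} : Set (Equiv.Perm Seq)) := by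
    intro p
    rw [← hsnd]
    exact ⟨p.1, p.2, rfl⟩
  let π2 : DD a b c d →* Subgroup.closure ({a, b, c, d} : Set (Equiv.Perm Seq)) :=
    ((MonoidHom.snd _ _).comp (DD a b c d).subtype).codRestrict _ hsnd'
  let π1 : DD a b c d →* SB.G :=
    ((MonoidHom.fst _ _).comp (DD a b c d).subtype).codRestrict _ (fun p => hfst _ p.2)
  have h1 : Function.Injective π1 := by
    rw [injective_iff_map_eq_one]
    rintro ⟨⟨p, q⟩, hp⟩ h
    have h2 : p = 1 := congrArg Subtype.val h
    subst h2
    have h3 := relD_left (hle hp)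
    subst h3
    rfl
  have h2 : Function.Bijective π2 := by
    constructor
    · rw [injective_iff_map_eq_one]
      rintro ⟨⟨p, q⟩, hp⟩ h
      have h2 : q = 1 := congrArg Subtype.val h
      subst h2
      have h3 := relD_right (hle hp)
      subst h3
      rfl
    · rintro ⟨g, hg⟩
      rw [← hsnd] at hg
      obtain ⟨p, hp, rfl⟩ := hg
      exact ⟨⟨p, hp⟩, rfl⟩
  refine ⟨π1.comp (MulEquiv.ofBijective π2 h2).symm.toMonoidHom, ?_⟩
  exact h1.comp (MulEquiv.ofBijective π2 h2).symm.injective

end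

/-- An infinite finitely generated subgroup of Grigorchuk's group containing its own square. -/
theorem exists_square : ∃ (K : Type) (_ : Group K) (_ : Group.FG K) (_ : Infinite K)
    (θ : K × K →* K) (ι : K →* SB.G), Function.Injective θ ∧ Function.Injective ι := by
  obtain ⟨a, b, c, d, hG⟩ := GE.taskGE
  obtain ⟨ι, hι⟩ := exists_iso hG
  exact ⟨KG a b d, inferInstance, inferInstance, KG_infinite hG, sqK hG,
    ι.comp (Subgroup.inclusion closure_sub), sqK_inj hG,
    hι.comp (Subgroup.inclusion_injective _)⟩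

end Pool.Agent.TH87.FDC
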