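import Pool.Agent.TH87.FDC.Tree

set_option autoImplicit false
set_option linter.unusedSectionVars false

namespace Pool.Agent.TH87.FDC

/-- A metric family: a collection of metric spaces. -/
structure MetricFamily : Type 1 where
  /-- the index set -/
  ι : Type
  /-- the members -/
  space : ι → Type
  /-- their metrics -/
  metric : ∀ i, MetricSpace (space i)

attribute [instance] MetricFamily.metric

/-- A metric family is bounded if the diameters of its members are uniformly bounded. -/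
def MetricFamily.Bounded (𝒳 : MetricFamily) : Prop :=
  ∃ D : ℝ, ∀ (i : 𝒳.ι) (x y : 𝒳.space i), dist x y ≤ D

/-- The family whose only member is `X`. -/
def MetricFamily.single (X : Type) (m : MetricSpace X) : MetricFamily where
  ι := Unit
  space := fun _ => X
  metric := fun _ => m

/-- A way to write every member `X` of the family `𝒳` as `X = X_0 ∪ ... ∪ X_d`, where each `X_k`
is an `r`-disjoint union of subspaces. -/
structure Decomposition (r : ℝ) (d : ℕ) (𝒳 : MetricFamily) : Type 1 where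
  /-- the index sets of the pieces of `X_k` -/
  κ : 𝒳.ι → Fin (d + 1) → Type
  /-- the pieces -/
  piece : ∀ (i : 𝒳.ι) (k : Fin (d + 1)), κ i k → Set (𝒳.space i)
  /-- the pieces cover -/
  cover : ∀ (i : 𝒳.ι) (x : 𝒳.space i), ∃ k j, x ∈ piece i k j
  /-- for fixed `k` the pieces are `r`-disjoint -/
  disjoint : ∀ (i : 𝒳.ι) (k : Fin (d + 1)) (j j' : κ i k), j ≠ j' →
    ∀ x ∈ piece i k j, ∀ y ∈ piece i k j', r < dist x y

/-- The family of all the pieces of a decomposition, as metric subspaces. -/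
def Decomposition.family {r : ℝ} {d : ℕ} {𝒳 : MetricFamily} (D : Decomposition r d 𝒳) :
    MetricFamily where
  ι := Σ (i : 𝒳.ι) (k : Fin (d + 1)), D.κ i k
  space := fun p => ↥(D.piece p.1 p.2.1 p.2.2)
  metric := fun _ => inferInstance

/-- `𝒳` is `(r, d)`-decomposable over the collection `C`. -/
def DecomposableOver (C : MetricFamily → Prop) (r : ℝ) (d : ℕ) (𝒳 : MetricFamily) : Prop :=
  ∃ D : Decomposition r d 𝒳, C D.family

/-- `C` contains all bounded families. -/
def ContainsBounded (C : MetricFamily → Prop) : Prop := ∀ 𝒳 : MetricFamily, 𝒳.Bounded → C 𝒳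

/-- `C` contains every family which is decomposable over it. -/
def StableDecomp (C : MetricFamily → Prop) : Prop :=
  ∀ 𝒳 : MetricFamily, (∀ r : ℝ, 0 < r → DecomposableOver C r 1 𝒳) → C 𝒳

/-- `C` contains every family which is weakly decomposable over it. -/
def StableWeakDecomp (C : MetricFamily → Prop) : Prop :=
  ∀ 𝒳 : MetricFamily, (∃ d : ℕ, ∀ r : ℝ, 0 < r → DecomposableOver C r d 𝒳) → C 𝒳

/-- Finite decomposition complexity: membership in the smallest collection which contains all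
bounded families and is stable under decomposition. -/
def HasFDC (𝒳 : MetricFamily) : Prop :=
  ∀ C : MetricFamily → Prop, ContainsBounded C → StableDecomp C → C 𝒳

/-- Weak finite decomposition complexity: membership in the smallest collection which contains all
bounded families and is stable under weak decomposition. -/
def HasWeakFDC (𝒳 : MetricFamily) : Prop :=
  ∀ C : MetricFamily → Prop, ContainsBounded C → StableWeakDecomp C → C 𝒳

/-- Sanity check: FDC implies weak FDC. -/
theorem HasFDC.weak {𝒳 : MetricFamily} (h : HasFDC 𝒳) : HasWeakFDC 𝒳 :=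
  fun C h1 h2 => h C h1 fun 𝒴 h3 => h2 𝒴 ⟨1, h3⟩

/-- A left-invariant metric on a group with finite balls. -/
structure ProperLeftInvariant {Γ : Type} [Group Γ] (m : MetricSpace Γ) : Prop where
  inv : ∀ g x y : Γ, m.dist (g * x) (g * y) = m.dist x y
  finite : ∀ R : ℝ, {x : Γ | m.dist 1 x ≤ R}.Finite

/-- The families all of whose members have vanishing cohomology, in the sense that every family
of subsets of `Γ` which embed isometrically into the members has. -/
def Good' {Γ : Type} [Group Γ] (m : MetricSpace Γ) {Ω A : Type} (s : Ω → A → Γ)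
    (perp : Ω → Ω → Prop) (𝒳 : MetricFamily) : Prop :=
  ∀ (J : Type) (S : J → Set Γ), (∀ j, (S j).Nonempty → ∃ (i : 𝒳.ι) (φ : S j → 𝒳.space i),
    ∀ x y : S j, dist (φ x) (φ y) = m.dist x y) → Van s perp S

section

variable {Γ : Type} [Group Γ] {m : MetricSpace Γ} (hm : ProperLeftInvariant m) {Ω A : Type}
  [Finite A] {s : Ω → A → Γ} {perp : Ω → Ω → Prop} (ht : Tree s perp)

include hm ht

lemma good'_bounded : ContainsBounded (Good' m s perp) := by
  rintro 𝒳 ⟨D, hD⟩ J S hS
  refine van_bounded ht {x : Γ | m.dist 1 x ≤ D} (hm.finite D) ?_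
  intro j x hx y hy
  obtain ⟨i, φ, hφ⟩ := hS j ⟨x, hx⟩
  have h1 := hD i (φ ⟨x, hx⟩) (φ ⟨y, hy⟩)
  rw [hφ] at h1
  have h2 := hm.inv x⁻¹ x y
  rw [inv_mul_cancel] at h2
  change m.dist 1 (x⁻¹ * y) ≤ D
  rw [h2]
  exact h1

/-- The general form of stability. -/
lemma good'_stable_general {𝒳 : MetricFamily} {d : ℕ}
    (h : ∀ r : ℝ, 0 < r → ∃ (D : Decomposition r d 𝒳) (𝒴 : MetricFamily), Good' m s perp 𝒴 ∧
      ∀ i k j, ∃ (l : 𝒴.ι) (ψ : D.piece i k j → 𝒴.space l), Isometry ψ) :
    Good' m s perp 𝒳 := by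
  classical
  intro J S hS
  refine van_step ht d fun F hF => ?_
  -- the scale
  obtain ⟨r, hr0, hr⟩ : ∃ r : ℝ, 0 < r ∧ ∀ g ∈ F, m.dist 1 g ≤ r := by
    obtain ⟨r, hr⟩ := (hF.image (fun g => m.dist 1 g)).bddAbove
    exact ⟨max r 1, lt_max_of_lt_right one_pos,
      fun g hg => (hr ⟨g, hg, rfl⟩).trans (le_max_left _ _)⟩
  obtain ⟨D, 𝒴, h𝒴, hD⟩ := h r hr0
  -- the labels
  choose idx φ hφ using hS
  have hlab : ∀ j x, ∃ q : Option (Σ (i : 𝒳.ι) (k : Fin (d + 1)), D.κ i k),
      ∀ hx : x ∈ S j, ∃ (k : Fin (d + 1)) (p : D.κ (idx j ⟨x, hx⟩) k),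
        q = some ⟨idx j ⟨x, hx⟩, k, p⟩ ∧ φ j ⟨x, hx⟩ ⟨x, hx⟩ ∈ D.piece (idx j ⟨x, hx⟩) k p := by
    intro j x
    by_cases hx : x ∈ S j
    · obtain ⟨k, p, hp⟩ := D.cover (idx j ⟨x, hx⟩) (φ j ⟨x, hx⟩ ⟨x, hx⟩)
      exact ⟨some ⟨idx j ⟨x, hx⟩, k, p⟩, fun _ => ⟨k, p, rfl, hp⟩⟩
    · exact ⟨none, fun hx' => absurd hx' hx⟩
  choose lab hlab using hlab
  refine ⟨Option (Σ (i : 𝒳.ι) (k : Fin (d + 1)), D.κ i k), lab,
    fun q => match q with | none => 0 | some p => p.2.1, ?_, ?_⟩
  · intro j x hx y hy hxy hc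
    obtain ⟨k, p, h1, h2⟩ := hlab j x hx
    obtain ⟨k', p', h3, h4⟩ := hlab j y hy
    rw [h1, h3] at hc
    simp only at hc
    subst hc
    rw [h1, h3]
    by_contra hne
    have hpp : p ≠ p' := fun h => hne (by rw [h])
    have h5 := D.disjoint (idx j ⟨x, hx⟩) k p p' hpp _ h2 _ h4
    have h8 := hφ j ⟨x, hx⟩ ⟨x, hx⟩ ⟨y, hy⟩
    have h9 : r < m.dist x y := by
      rw [← h8]
      exact h5
    have h6 := hr _ hxy
    have h7 := hm.inv x⁻¹ x y
    rw [inv_mul_cancel] at h7
    rw [h7] at h6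
    exact absurd h6 (not_le.2 h9)
  · intro I S' hS'
    refine h𝒴 I S' fun i hi => ?_
    obtain ⟨j, l, hl⟩ := hS' i
    obtain ⟨x0, hx0⟩ := hi
    have hx0S : x0 ∈ S j := (hl hx0).1
    have hx0l : lab j x0 = l := (hl hx0).2
    have hne : (S j).Nonempty := ⟨x0, hx0S⟩
    obtain ⟨k, p, h1, h2⟩ : ∃ (k : Fin (d + 1)) (p : D.κ (idx j hne) k),
        lab j x0 = some ⟨idx j hne, k, p⟩ ∧ φ j hne ⟨x0, hx0S⟩ ∈ D.piece (idx j hne) k p :=
      hlab j x0 hx0S
    have hl' : l = some ⟨idx j hne, k, p⟩ := hx0l.symm.trans h1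
    have key : ∀ x : S' i, ∃ hx : (x : Γ) ∈ S j,
        φ j hne ⟨x, hx⟩ ∈ D.piece (idx j hne) k p := by
      intro x
      have hxS : (x : Γ) ∈ S j := (hl x.2).1
      have hxl : lab j x = l := (hl x.2).2
      obtain ⟨k', p', h3, h4⟩ : ∃ (k : Fin (d + 1)) (p : D.κ (idx j hne) k),
        lab j x = some ⟨idx j hne, k, p⟩ ∧ φ j hne ⟨x, hxS⟩ ∈ D.piece (idx j hne) k p :=
        hlab j x hxS
      refine ⟨hxS, ?_⟩
      have h5 : some (⟨idx j hne, k', p'⟩ : Σ (i : 𝒳.ι) (k : Fin (d + 1)), D.κ i k) =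
          some ⟨idx j hne, k, p⟩ := h3.symm.trans (hxl.trans hl')
      have h6 := Option.some.inj h5
      have h7 := eq_of_heq (Sigma.mk.inj_iff.1 h6).2
      obtain ⟨h8, h9⟩ := Sigma.mk.inj_iff.1 h7
      subst h8
      have h10 := eq_of_heq h9
      subst h10
      exact h4
    choose hx1 hx2 using key
    obtain ⟨q, ψ, hψ⟩ := hD (idx j hne) k p
    refine ⟨q, fun x => ψ ⟨φ j hne ⟨x, hx1 x⟩, hx2 x⟩, fun x y => ?_⟩
    rw [hψ.dist_eq]
    exact hφ j hne ⟨x, hx1 x⟩ ⟨y, hx1 y⟩

lemma good'_stable : StableWeakDecomp (Good' m s perp) := by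
  rintro 𝒳 ⟨d, h⟩
  refine good'_stable_general hm ht (d := d) fun r hr => ?_
  obtain ⟨D, hD⟩ := h r hr
  exact ⟨D, D.family, hD, fun i k j => ⟨⟨i, k, j⟩, id, isometry_id⟩⟩

lemma not_good'_single (v : Ω) : ¬ Good' m s perp (MetricFamily.single Γ m) := by
  intro h
  exact not_van_univ v (h Unit (fun _ => Set.univ) fun _ _ => ⟨(), fun x => x.1, fun _ _ => rfl⟩)

/-- A group with a tree of commuting subgroups does not have weak FDC. -/
theorem not_weakFDC_of_tree (v : Ω) : ¬ HasWeakFDC (MetricFamily.single Γ m) := fun h =>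
  not_good'_single hm ht v (h _ (good'_bounded hm ht) (good'_stable hm ht))

end

/-- **General theorem.** If a group `Γ` contains an infinite finitely generated group `K` which
contains its own square `K × K`, then `Γ` does not have weak FDC, for any proper left-invariant
metric. -/
theorem not_weakFDC_of_square {Γ : Type} [Group Γ] {m : MetricSpace Γ}
    (hm : ProperLeftInvariant m) {K : Type} [Group K] [Group.FG K] [Infinite K]
    (θ : K × K →* K) (hθ : Function.Injective θ) (ι : K →* Γ) (hι : Function.Injective ι) :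
    ¬ HasWeakFDC (MetricFamily.single Γ m) := by
  obtain ⟨T, hT, hfin⟩ := Group.fg_iff.1 (inferInstance : Group.FG K)
  have : Finite T := hfin
  exact not_weakFDC_of_tree hm (tree_of_square θ hθ ι hι (A := T) (fun a => a.1)
    (by rw [Subtype.range_coe_subtype]; exact hT)) []

end Pool.Agent.TH87.FDC
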