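import Pool.Agent.TH87.FDC.Fam

set_option autoImplicit false
set_option linter.unusedSectionVars false

namespace Pool.Agent.TH87.FDC

/-! ### Chains on a simplex -/

/-- Chains (with the empty simplex) on the full simplex with vertex set `L`. -/
abbrev Nv (L : Type) : Type := Finset L →₀ ZMod 2

instance instTwoNv {L : Type} : Two (Nv L) := ⟨fun x => Finsupp.ext fun i => Two.add_self (x i)⟩

section chains

variable {L : Type}

open Classical in
/-- The boundary. -/
noncomputable def bd : Nv L →ₗ[ZMod 2] Nv L :=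
  Finsupp.linearCombination (ZMod 2) (fun T : Finset L => ∑ t ∈ T, Finsupp.single (T.erase t) 1)

open Classical in
/-- The cone with apex `l`. -/
noncomputable def cone (l : L) : Nv L →ₗ[ZMod 2] Nv L :=
  Finsupp.linearCombination (ZMod 2)
    (fun T : Finset L => if l ∈ T then 0 else Finsupp.single (insert l T) 1)

open Classical in
lemma bd_single (T : Finset L) :
    bd (Finsupp.single T 1) = ∑ t ∈ T, Finsupp.single (T.erase t) (1 : ZMod 2) := by
  simp [bd, Finsupp.linearCombination_single]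

open Classical in
lemma cone_single (l : L) (T : Finset L) :
    cone l (Finsupp.single T 1) = if l ∈ T then 0 else Finsupp.single (insert l T) 1 := by
  simp [cone, Finsupp.linearCombination_single]

lemma bd_bd (x : Nv L) : bd (bd x) = 0 := by
  classical
  have : (bd.comp bd : Nv L →ₗ[ZMod 2] Nv L) = 0 := by
    refine Finsupp.lhom_ext' fun T => LinearMap.ext_ring ?_
    simp only [LinearMap.comp_apply, Finsupp.lsingle_apply, LinearMap.zero_apply]
    rw [bd_single, map_sum]
    simp only [bd_single]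
    rw [Finset.sum_sigma']
    refine Finset.sum_involution (fun p _ => ⟨p.2, p.1⟩) ?_ ?_ ?_ ?_
    · rintro ⟨t, s⟩ h
      simp only
      rw [Finset.erase_right_comm]
      exact Two.add_self _
    · rintro ⟨t, s⟩ h _ heq
      simp only [Finset.mem_sigma, Finset.mem_erase] at h
      have := congrArg Sigma.fst heq
      exact h.2.1 this
    · rintro ⟨t, s⟩ h
      simp only [Finset.mem_sigma, Finset.mem_erase] at h ⊢
      exact ⟨h.2.2, fun h' => h.2.1 h'.symm, h.1⟩
    · rintro ⟨t, s⟩ h
      rfl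
  exact congrArg (fun f => f x) this

lemma bd_cone (l : L) (x : Nv L) : bd (cone l x) + cone l (bd x) = x := by
  classical
  have : (bd.comp (cone l) + (cone l).comp bd : Nv L →ₗ[ZMod 2] Nv L) = LinearMap.id := by
    refine Finsupp.lhom_ext' fun T => LinearMap.ext_ring ?_
    simp only [LinearMap.comp_apply, LinearMap.add_apply, Finsupp.lsingle_apply,
      LinearMap.id_apply]
    rw [cone_single, bd_single, map_sum]
    simp only [cone_single]
    by_cases hl : l ∈ T
    · rw [if_pos hl, map_zero, zero_add, Finset.sum_eq_single l]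
      · rw [if_neg (Finset.notMem_erase l T), Finset.insert_erase hl]
      · intro t ht hne
        rw [if_pos]
        exact Finset.mem_erase.2 ⟨hne.symm, hl⟩
      · intro h
        exact absurd hl h
    · rw [if_neg hl, bd_single, Finset.sum_insert hl, Finset.erase_insert hl, add_assoc]
      have : ∑ t ∈ T, Finsupp.single ((insert l T).erase t) (1 : ZMod 2) =
          ∑ t ∈ T, (if l ∈ T.erase t then 0 else Finsupp.single (insert l (T.erase t)) 1) := by
        refine Finset.sum_congr rfl fun t ht => ?_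
        rw [if_neg (fun h => hl (Finset.mem_of_mem_erase h)), Finset.erase_insert_of_ne]
        rintro rfl
        exact hl ht
      rw [this, Two.add_self, add_zero]
  exact congrArg (fun f => f x) this

lemma bd_ne {f : Nv L} {T : Finset L} (h : bd f T ≠ 0) :
    ∃ T', f T' ≠ 0 ∧ T ⊆ T' ∧ T'.card = T.card + 1 := by
  classical
  unfold bd at h
  rw [Finsupp.linearCombination_apply, Finsupp.sum, Finsupp.finsetSum_apply] at h
  obtain ⟨T', hT', h1⟩ := Finset.exists_ne_zero_of_sum_ne_zero h
  rw [Finsupp.smul_apply, Finsupp.finsetSum_apply] at h1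
  have h2 : (∑ i ∈ T', (Finsupp.single (T'.erase i) (1 : ZMod 2)) T) ≠ 0 := by
    intro h0
    rw [h0, smul_zero] at h1
    exact h1 rfl
  obtain ⟨t, ht, h3⟩ := Finset.exists_ne_zero_of_sum_ne_zero h2
  rw [Finsupp.single_apply] at h3
  have h4 : T'.erase t = T := by
    by_contra hne
    rw [if_neg hne] at h3
    exact h3 rfl
  refine ⟨T', Finsupp.mem_support_iff.1 hT', ?_, ?_⟩
  · rw [← h4]; exact Finset.erase_subset _ _
  · rw [← h4, Finset.card_erase_of_mem ht]
    have := Finset.card_pos.2 ⟨t, ht⟩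
    omega

lemma cone_ne {l : L} {f : Nv L} {T : Finset L} (h : cone l f T ≠ 0) :
    ∃ T', f T' ≠ 0 ∧ T.card = T'.card + 1 ∧ ∀ t ∈ T, t = l ∨ t ∈ T' := by
  classical
  unfold cone at h
  rw [Finsupp.linearCombination_apply, Finsupp.sum, Finsupp.finsetSum_apply] at h
  obtain ⟨T', hT', h1⟩ := Finset.exists_ne_zero_of_sum_ne_zero h
  rw [Finsupp.smul_apply] at h1
  have h2 : (if l ∈ T' then (0 : Nv L) else Finsupp.single (insert l T') 1) T ≠ 0 := by
    intro h0
    rw [h0, smul_zero] at h1
    exact h1 rfl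
  by_cases hl : l ∈ T'
  · rw [if_pos hl] at h2
    exact absurd rfl h2
  · rw [if_neg hl, Finsupp.single_apply] at h2
    have h4 : insert l T' = T := by
      by_contra hne
      rw [if_neg hne] at h2
      exact h2 rfl
    refine ⟨T', Finsupp.mem_support_iff.1 hT', ?_, ?_⟩
    · rw [← h4, Finset.card_insert_of_notMem hl]
    · intro t ht
      rw [← h4, Finset.mem_insert] at ht
      exact ht

end chains

variable {Γ : Type} [Group Γ] {Ω A : Type} {J L : Type}

/-- The pointwise boundary. -/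
noncomputable def bdF : (Γ → J → Nv L) →+ (Γ → J → Nv L) where
  toFun f := fun x j => bd (f x j)
  map_zero' := by funext x j; exact map_zero bd
  map_add' f g := by funext x j; exact map_add bd _ _

/-- The pointwise cone. -/
noncomputable def coneF (l : Γ → J → L) : (Γ → J → Nv L) →+ (Γ → J → Nv L) where
  toFun f := fun x j => cone (l x j) (f x j)
  map_zero' := by funext x j; exact map_zero (cone (l x j))
  map_add' f g := by funext x j; exact map_add (cone (l x j)) _ _

lemma bdF_apply (f : Γ → J → Nv L) (x : Γ) (j : J) : bdF f x j = bd (f x j) := rfl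

lemma bdF_tr (g : Γ) : bdF.comp (tr g) = ((tr g).comp bdF : (Γ → J → Nv L) →+ (Γ → J → Nv L)) :=
  rfl

lemma bdF_bdF (W : List Ω) (c : Co A (Γ → J → Nv L) W) : mp bdF W (mp bdF W c) = 0 := by
  rw [mp_comp]
  have : (bdF.comp bdF : (Γ → J → Nv L) →+ (Γ → J → Nv L)) = 0 := by
    ext f x j : 3
    exact bd_bd _
  rw [this, mp_zero]

lemma bdF_coneF (l : Γ → J → L) (W : List Ω) (c : Co A (Γ → J → Nv L) W) :
    mp bdF W (mp (coneF l) W c) + mp (coneF l) W (mp bdF W c) = c := by
  rw [mp_comp, mp_comp, ← mp_add]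
  have : (bdF.comp (coneF l) + (coneF l).comp bdF : (Γ → J → Nv L) →+ (Γ → J → Nv L)) =
      AddMonoidHom.id _ := by
    ext f x j : 3
    exact bd_cone _ _
  rw [this, mp_id]

lemma del_bdF (s : Ω → A → Γ) (W : List Ω) (c : Co A (Γ → J → Nv L) W) :
    del s W (mp bdF W c) = mp bdF W (del s W c) :=
  del_mp s _ W (fun _ _ _ => rfl) c

/-- Functions as cochains of degree `0`. -/
def emb {F : Type} [AddCommGroup F] : ∀ W : List Ω, F → Co A F W
  | [], f => f
  | _ :: W, f => Co.mk (emb W f) 0

section emb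

variable {F F' : Type} [AddCommGroup F] [AddCommGroup F']

lemma mp_emb (φ : F →+ F') (W : List Ω) (f : F) :
    mp φ W (emb (A := A) W f) = emb W (φ f) := by
  induction W with
  | nil => rfl
  | cons v W ih => exact Co.ext ih (fun a => map_zero _)

lemma lt_emb (W : List Ω) (f : F) : Lt W 1 (emb (A := A) W f) := by
  induction W with
  | nil => exact tc_nil_succ 0 _
  | cons v W ih => exact Co.ext ih (fun a => tc_zero _ _)

lemma ent_emb {P : F → Prop} (h0 : P 0) (W : List Ω) (f : F) (h : P f) :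
    Ent P W (emb (A := A) W f) := by
  induction W with
  | nil => exact h
  | cons v W ih => exact ⟨ih, fun a => Ent.zero h0 _⟩

lemma del_emb {X : Type} [AddCommGroup X] [Two X] (s : Ω → A → Γ) (W : List Ω) (f : Γ → X)
    (h : ∀ g, tr g f = f) : del s W (emb W f) = 0 := by
  induction W with
  | nil => rfl
  | cons v W ih =>
    refine Co.ext ih (fun a => ?_)
    rw [del_o]
    change del s W 0 + (mp (tr (s v a)) W (emb W f) + emb W f) = 0
    rw [map_zero, zero_add, mp_emb, h, Two.add_self]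

end emb

/-! ### The sequence of cochains attached to a labelling -/

/-- The cochain with values in the simplices. -/
noncomputable def wS (s : Ω → A → Γ) (l : Γ → J → L) (W : List Ω) :
    ℕ → Co A (Γ → J → Nv L) W
  | 0 => emb W (fun x j => Finsupp.single {l x j} 1)
  | k + 1 => mp (coneF l) W (del s W (wS s l W k))

section wS

variable {s : Ω → A → Γ} {l : Γ → J → L} {W : List Ω}

lemma bd_wS_zero : mp bdF W (wS s l W 0) = emb W (fun _ _ => Finsupp.single ∅ 1) := by
  classical
  unfold wS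
  rw [mp_emb]
  congr 1
  funext x j
  rw [bdF_apply, bd_single, Finset.sum_singleton]
  congr 1
  ext y
  simp

lemma del_bd_wS (hW : W.Pairwise (Cm s)) (k : ℕ) : del s W (mp bdF W (wS s l W k)) = 0 ∧
    mp bdF W (wS s l W (k + 1)) = del s W (wS s l W k) := by
  induction k with
  | zero =>
    have h0 : del s W (mp bdF W (wS s l W 0)) = 0 := by
      rw [bd_wS_zero]
      exact del_emb s W _ (fun g => rfl)
    refine ⟨h0, ?_⟩
    have h1 := bdF_coneF l W (del s W (wS s l W 0))
    rw [← del_bdF, h0, map_zero, add_zero] at h1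
    exact h1
  | succ k ih =>
    have h0 : del s W (mp bdF W (wS s l W (k + 1))) = 0 := by
      rw [ih.2, del_del s hW]
    refine ⟨h0, ?_⟩
    have h1 := bdF_coneF l W (del s W (wS s l W (k + 1)))
    rw [← del_bdF, h0, map_zero, add_zero] at h1
    exact h1

lemma Lt.del {X : Type} [AddCommGroup X] {k : ℕ} {c : Co A (Γ → X) W} (h : Lt W k c) :
    Lt W (k + 1) (del s W c) := by
  unfold Lt at *
  rw [← del_tc, h]

lemma lt_wS (k : ℕ) : Lt W (k + 1) (wS s l W k) := by
  induction k with
  | zero => exact lt_emb W _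
  | succ k ih => exact (Lt.del ih).mp _

end wS

/-- Pointwise support conditions. -/
def PT (R : Γ → J → Finset L → Prop) (f : Γ → J → Nv L) : Prop := ∀ x j T, f x j T ≠ 0 → R x j T

lemma PT.zero (R : Γ → J → Finset L → Prop) : PT R (0 : Γ → J → Nv L) :=
  fun _ _ _ h => absurd rfl h

lemma PT.add {R : Γ → J → Finset L → Prop} {f g : Γ → J → Nv L} (hf : PT R f) (hg : PT R g) :
    PT R (f + g) := by
  intro x j T h
  by_cases h1 : f x j T = 0
  · refine hg x j T fun h2 => h ?_
    rw [Pi.add_apply, Pi.add_apply, Finsupp.add_apply, h1, h2, add_zero]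
  · exact hf x j T h1

lemma ent_del' {X : Type} [AddCommGroup X] {P Q : (Γ → X) → Prop} {s : Ω → A → Γ} {W : List Ω}
    (hPQ : ∀ f, P f → Q f) (h0 : Q 0) (hadd : ∀ f g, Q f → Q g → Q (f + g))
    (htr : ∀ w ∈ W, ∀ a f, P f → Q (tr (s w a) f)) {c : Co A (Γ → X) W} (hc : Ent P W c) :
    Ent Q W (del s W c) := by
  induction W with
  | nil => exact h0
  | cons v W ih =>
    have ih' : ∀ {c : Co A (Γ → X) W}, Ent P W c → Ent Q W (del s W c) :=
      fun {c} => ih (fun w hw => htr w (List.mem_cons_of_mem _ hw)) (c := c)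
    refine ⟨ih' hc.1, fun a => ?_⟩
    rw [del_o]
    exact Ent.add hadd (ih' (hc.2 a)) (Ent.add hadd
      (Ent.mp (htr v (List.mem_cons_self ..) a) hc.1) (hc.1.mono hPQ))

/-- Products of at most `k` elements of `T`. -/
def Gs (T : Set Γ) : ℕ → Set Γ
  | 0 => {1}
  | k + 1 => Gs T k ∪ Set.image2 (fun g h => g * h) T (Gs T k)

lemma Gs_finite {T : Set Γ} (hT : T.Finite) (k : ℕ) : (Gs T k).Finite := by
  induction k with
  | zero => exact Set.finite_singleton _
  | succ k ih => exact ih.union (hT.image2 _ ih)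

lemma Gs_mono {T : Set Γ} {k l : ℕ} (h : k ≤ l) : Gs T k ⊆ Gs T l := by
  induction l, h using Nat.le_induction with
  | base => exact subset_rfl
  | succ l _ ih => exact ih.trans Set.subset_union_left

lemma one_mem_Gs (T : Set Γ) (k : ℕ) : (1 : Γ) ∈ Gs T k := Gs_mono (Nat.zero_le k) rfl

lemma ent_wS {s : Ω → A → Γ} {l : Γ → J → L} {W : List Ω} {T : Set Γ}
    (hT : ∀ w ∈ W, ∀ a, s w a ∈ T) (k : ℕ) :
    Ent (PT (fun x j S => S.card = k + 1 ∧ ∀ t ∈ S, ∃ g ∈ Gs T k, t = l (x * g) j)) W
      (wS s l W k) := by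
  classical
  induction k with
  | zero =>
    refine ent_emb (PT.zero _) W _ ?_
    intro x j S hS
    have h1 : S = {l x j} := by
      by_contra hne
      apply hS
      rw [Finsupp.single_apply, if_neg (Ne.symm hne)]
    rw [h1]
    refine ⟨by simp, fun t ht => ⟨1, rfl, ?_⟩⟩
    rw [mul_one]
    exact Finset.mem_singleton.1 ht
  | succ k ih =>
    refine Ent.mp (P := PT (fun x j S => S.card = k + 1 ∧ ∀ t ∈ S, ∃ g ∈ Gs T (k + 1),
      t = l (x * g) j)) ?_ ?_
    · intro f hf x j S hS
      obtain ⟨S', h1, h2, h3⟩ := cone_ne hS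
      obtain ⟨h4, h5⟩ := hf x j S' h1
      refine ⟨by omega, fun t ht => ?_⟩
      rcases h3 t ht with h6 | h6
      · exact ⟨1, one_mem_Gs _ _, by rw [mul_one]; exact h6⟩
      · exact h5 t h6
    · refine ent_del' (hPQ := ?_) (PT.zero _) (fun f g hf hg => hf.add hg) ?_ ih
      · intro f hf x j S hS
        obtain ⟨h1, h2⟩ := hf x j S hS
        refine ⟨h1, fun t ht => ?_⟩
        obtain ⟨g, hg, h3⟩ := h2 t ht
        exact ⟨g, Or.inl hg, h3⟩
      · intro w hw a f hf x j S hS
        obtain ⟨h1, h2⟩ := hf (x * s w a) j S hS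
        refine ⟨h1, fun t ht => ?_⟩
        obtain ⟨g, hg, h3⟩ := h2 t ht
        exact ⟨s w a * g, Or.inr ⟨s w a, hT w hw a, g, hg, rfl⟩, by rw [← mul_assoc]; exact h3⟩

/-! ### The cup product -/

/-- The product of a cochain with values in `X` and a cochain with values in `ZMod 2`. -/
def cup {X : Type} [AddCommGroup X] [Module (ZMod 2) X] (s : Ω → A → Γ) :
    ∀ W : List Ω, Co A (Γ → J → X) W → Co A (Γ → J → ZMod 2) W → Co A (Γ → J → X) W
  | [], u, z => fun x j => (z : Γ → J → ZMod 2) x j • (u : Γ → J → X) x j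
  | v :: W, u, z => Co.mk (cup s W u.z z.z)
      (fun a => cup s W u.z (z.o a) + cup s W (u.o a) (mp (tr (s v a)) W z.z))

section cup

variable {X : Type} [AddCommGroup X] [Module (ZMod 2) X] {s : Ω → A → Γ} {v : Ω} {W : List Ω}

lemma cup_z (u : Co A (Γ → J → X) (v :: W)) (z : Co A (Γ → J → ZMod 2) (v :: W)) :
    (cup s (v :: W) u z).z = cup s W u.z z.z := rfl
lemma cup_o (u : Co A (Γ → J → X) (v :: W)) (z : Co A (Γ → J → ZMod 2) (v :: W)) (a : A) :
    (cup s (v :: W) u z).o a =
      cup s W u.z (z.o a) + cup s W (u.o a) (mp (tr (s v a)) W z.z) := rfl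

lemma cup_add_left (u u' : Co A (Γ → J → X) W) (z : Co A (Γ → J → ZMod 2) W) :
    cup s W (u + u') z = cup s W u z + cup s W u' z := by
  induction W with
  | nil => funext x j; exact smul_add _ _ _
  | cons v W ih =>
    refine Co.ext ?_ fun a => ?_
    · rw [z_add, cup_z, cup_z, cup_z, z_add, ih]
    · rw [o_add, cup_o, cup_o, cup_o, z_add, o_add, ih, ih]
      abel

lemma cup_add_right (u : Co A (Γ → J → X) W) (z z' : Co A (Γ → J → ZMod 2) W) :
    cup s W u (z + z') = cup s W u z + cup s W u z' := by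
  induction W with
  | nil => funext x j; exact add_smul _ _ _
  | cons v W ih =>
    refine Co.ext ?_ fun a => ?_
    · rw [z_add, cup_z, cup_z, cup_z, z_add, ih]
    · rw [o_add, cup_o, cup_o, cup_o, z_add, o_add, ih, map_add, ih]
      abel

lemma cup_zero_left (z : Co A (Γ → J → ZMod 2) W) :
    cup s W (0 : Co A (Γ → J → X) W) z = 0 := by
  have h := cup_add_left (s := s) (0 : Co A (Γ → J → X) W) 0 z
  rw [add_zero] at h
  exact left_eq_add.1 h

lemma cup_zero_right (u : Co A (Γ → J → X) W) :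
    cup s W u (0 : Co A (Γ → J → ZMod 2) W) = 0 := by
  have h := cup_add_right (s := s) u (0 : Co A (Γ → J → ZMod 2) W) 0
  rw [add_zero] at h
  exact left_eq_add.1 h

lemma cup_tr {g : Γ} (hg : ∀ w ∈ W, ∀ a, Commute g (s w a)) (u : Co A (Γ → J → X) W)
    (z : Co A (Γ → J → ZMod 2) W) :
    mp (tr g) W (cup s W u z) = cup s W (mp (tr g) W u) (mp (tr g) W z) := by
  induction W with
  | nil => rfl
  | cons v W ih =>
    have ih' : ∀ (u : Co A (Γ → J → X) W) (z : Co A (Γ → J → ZMod 2) W),
        mp (tr g) W (cup s W u z) = cup s W (mp (tr g) W u) (mp (tr g) W z) :=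
      ih (fun w hw => hg w (List.mem_cons_of_mem _ hw))
    refine Co.ext ?_ fun a => ?_
    · rw [mp_z, cup_z, cup_z, ih', mp_z, mp_z]
    · rw [mp_o, cup_o, cup_o, map_add, ih', ih', mp_z, mp_o, mp_o, mp_z, mp_comp, mp_comp,
        tr_comm (hg v (List.mem_cons_self ..) a)]

lemma del_cup [Two X] (hW : W.Pairwise (Cm s)) (u : Co A (Γ → J → X) W)
    (z : Co A (Γ → J → ZMod 2) W) :
    del s W (cup s W u z) = cup s W (del s W u) z + cup s W u (del s W z) := by
  induction W with
  | nil =>
    rw [del_nil, del_nil, del_nil, cup_zero_left, cup_zero_right, add_zero]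
  | cons v W ih =>
    rw [List.pairwise_cons] at hW
    have ih' : ∀ (u : Co A (Γ → J → X) W) (z : Co A (Γ → J → ZMod 2) W),
        del s W (cup s W u z) = cup s W (del s W u) z + cup s W u (del s W z) := ih hW.2
    have htr : ∀ (a : A) (u : Co A (Γ → J → X) W) (z : Co A (Γ → J → ZMod 2) W),
        mp (tr (s v a)) W (cup s W u z) = cup s W (mp (tr (s v a)) W u) (mp (tr (s v a)) W z) :=
      fun a => cup_tr (fun w hw b => hW.1 w hw a b)
    have htrd : ∀ (a : A) (z : Co A (Γ → J → ZMod 2) W),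
        del s W (mp (tr (s v a)) W z) = mp (tr (s v a)) W (del s W z) :=
      fun a => del_tr s (fun w hw b => hW.1 w hw a b)
    refine Co.ext ?_ fun a => ?_
    · rw [del_z, cup_z, z_add, cup_z, cup_z, ih', del_z, del_z]
    · rw [del_o, cup_o, cup_z, o_add, cup_o, cup_o, map_add, ih', ih', htr, del_z, del_o, del_o,
        del_z, cup_add_left, cup_add_left, cup_add_right, cup_add_right, htrd]
      set p1 := cup s W (del s W u.z) (z.o a)
      set p2 := cup s W u.z (del s W (z.o a))
      set p3 := cup s W (del s W (u.o a)) (mp (tr (s v a)) W z.z)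
      set p4 := cup s W (u.o a) (mp (tr (s v a)) W (del s W z.z))
      set p5 := cup s W (mp (tr (s v a)) W u.z) (mp (tr (s v a)) W z.z)
      set p6 := cup s W u.z z.z
      set p7 := cup s W u.z (mp (tr (s v a)) W z.z)
      have h7 : p7 + p7 = 0 := Two.add_self p7
      calc p1 + p2 + (p3 + p4) + (p5 + p6) = p1 + (p3 + p5) + (p2 + p6 + p4) + 0 := by
            rw [add_zero]; abel
        _ = p1 + (p3 + p5) + (p2 + p6 + p4) + (p7 + p7) := by rw [h7]
        _ = p1 + (p3 + (p5 + p7)) + (p2 + (p7 + p6) + p4) := by abel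

lemma lt_cup_aux (W : List Ω) : ∀ (k l m : ℕ), k + l + 1 ≤ m → ∀ {u : Co A (Γ → J → X) W}
    {z : Co A (Γ → J → ZMod 2) W}, Lt W (k + 1) u → Lt W (l + 1) z → Lt W m (cup s W u z) := by
  induction W with
  | nil =>
    intro k l m h u z _ _
    exact lt_top _ (by simp; omega) _
  | cons v W ih =>
    intro k l m h u z hu hz
    refine Lt.mk (ih k l m h hu.z hz.z) fun a => ?_
    rw [cup_o]
    refine Lt.add ?_ ?_
    · have h1 := hz.o a
      rw [Nat.add_sub_cancel] at h1
      rcases l with _ | l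
      · rw [h1.eq_zero, cup_zero_right]; exact Lt.zero _
      · exact ih k l (m - 1) (by omega) hu.z h1
    · have h1 := hu.o a
      rw [Nat.add_sub_cancel] at h1
      rcases k with _ | k
      · rw [h1.eq_zero, cup_zero_left]; exact Lt.zero _
      · exact ih k l (m - 1) (by omega) h1 (hz.z.mp _)

lemma lt_cup (k l m : ℕ) (hklm : k + l ≤ m + 1) {u : Co A (Γ → J → X) W}
    {z : Co A (Γ → J → ZMod 2) W} (hu : Lt W k u) (hz : Lt W l z) : Lt W m (cup s W u z) := by
  rcases k with _ | k
  · rw [hu.eq_zero, cup_zero_left]; exact Lt.zero _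
  rcases l with _ | l
  · rw [hz.eq_zero, cup_zero_right]; exact Lt.zero _
  exact lt_cup_aux W k l m (by omega) hu hz

end cup

section cup2

variable {s : Ω → A → Γ} {v : Ω} {W : List Ω}

lemma cup_bd (u : Co A (Γ → J → Nv L) W) (z : Co A (Γ → J → ZMod 2) W) :
    mp bdF W (cup s W u z) = cup s W (mp bdF W u) z := by
  induction W with
  | nil => funext x j; exact map_smul bd _ _
  | cons v W ih =>
    refine Co.ext ?_ fun a => ?_
    · rw [mp_z, cup_z, cup_z, ih, mp_z]
    · rw [mp_o, cup_o, cup_o, map_add, ih, ih, mp_z, mp_o]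

/-- The coefficient of the empty simplex. -/
def ev : (Γ → J → Nv L) →+ (Γ → J → ZMod 2) where
  toFun f := fun x j => f x j ∅
  map_zero' := rfl
  map_add' _ _ := rfl

lemma ev_cup (z : Co A (Γ → J → ZMod 2) W) :
    mp ev W (cup s W (emb W (fun _ _ => (Finsupp.single ∅ 1 : Nv L))) z) = z := by
  induction W with
  | nil =>
    funext x j
    change ((z : Γ → J → ZMod 2) x j • (Finsupp.single ∅ 1 : Nv L)) ∅ = (z : Γ → J → ZMod 2) x j
    rw [Finsupp.smul_apply, Finsupp.single_eq_same, smul_eq_mul, mul_one]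
  | cons v W ih =>
    refine Co.ext ?_ fun a => ?_
    · rw [mp_z, cup_z]; exact ih _
    · rw [mp_o, cup_o, map_add]
      change mp ev W (cup s W (emb W (fun _ _ => (Finsupp.single ∅ 1 : Nv L))) (z.o a)) +
        mp ev W (cup s W 0 (mp (tr (s v a)) W z.z)) = z.o a
      rw [ih, cup_zero_left, map_zero, add_zero]

/-- Enlarging a finite set. -/
def Bs (B T : Set Γ) : ℕ → Set Γ
  | 0 => B
  | k + 1 => Bs B T k ∪ Set.image2 (fun b g => b * g⁻¹) (Bs B T k) T

lemma Bs_finite {B T : Set Γ} (hB : B.Finite) (hT : T.Finite) (k : ℕ) : (Bs B T k).Finite := by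
  induction k with
  | zero => exact hB
  | succ k ih => exact ih.union (ih.image2 _ hT)

lemma Bs_mono {B T : Set Γ} {k l : ℕ} (h : k ≤ l) : Bs B T k ⊆ Bs B T l := by
  induction l, h using Nat.le_induction with
  | base => exact subset_rfl
  | succ l _ ih => exact ih.trans Set.subset_union_left

lemma ent_cup {R : Γ → J → Finset L → Prop} {S : J → Set Γ} {B T : Set Γ}
    (hT : ∀ w ∈ W, ∀ a, s w a ∈ T) (n : ℕ) {u : Co A (Γ → J → Nv L) W}
    {z : Co A (Γ → J → ZMod 2) W} (hu : Ent (PT R) W u) (hz : Ent (NS S (Bs B T n)) W z) :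
    Ent (PT (fun x j S' => R x j S' ∧ ∃ y ∈ S j, ∃ b ∈ Bs B T (n + W.length), x = y * b)) W
      (cup s W u z) := by
  induction W generalizing n with
  | nil =>
    intro x j S' h
    have h1 : ((z : Γ → J → ZMod 2) x j • (u : Γ → J → Nv L) x j) S' ≠ 0 := h
    rw [Finsupp.smul_apply, smul_eq_mul] at h1
    exact ⟨hu x j S' (right_ne_zero_of_mul h1), hz x j (left_ne_zero_of_mul h1)⟩
  | cons v W ih =>
    have ih' : ∀ (n : ℕ) {u : Co A (Γ → J → Nv L) W}
        {z : Co A (Γ → J → ZMod 2) W}, Ent (PT R) W u → Ent (NS S (Bs B T n)) W z →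
        Ent (PT (fun x j S' => R x j S' ∧ ∃ y ∈ S j, ∃ b ∈ Bs B T (n + W.length), x = y * b)) W
          (cup s W u z) := fun n {u z} => ih (fun w hw => hT w (List.mem_cons_of_mem _ hw)) n
    have hm : ∀ {c : Co A (Γ → J → Nv L) W} {k : ℕ}, k ≤ n + (v :: W).length →
        Ent (PT (fun x j S' => R x j S' ∧ ∃ y ∈ S j, ∃ b ∈ Bs B T k, x = y * b)) W c →
        Ent (PT (fun x j S' => R x j S' ∧ ∃ y ∈ S j, ∃ b ∈ Bs B T (n + (v :: W).length),
          x = y * b)) W c := by
      intro c k hk hc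
      refine hc.mono fun f hf x j S' h => ?_
      obtain ⟨h1, y, hy, b, hb, h2⟩ := hf x j S' h
      exact ⟨h1, y, hy, b, Bs_mono hk hb, h2⟩
    refine ⟨hm (by simp) (ih' n hu.1 hz.1), fun a => ?_⟩
    rw [cup_o]
    refine Ent.add (fun f g hf hg => hf.add hg) (hm (by simp) (ih' n hu.1 (hz.2 a)))
      (hm (k := n + 1 + W.length) (by simp; omega) (ih' (n + 1) (hu.2 a) ?_))
    refine Ent.mp (P := NS S (Bs B T n)) ?_ hz.1
    intro f hf x j h
    obtain ⟨y, hy, b, hb, h2⟩ := hf (x * s v a) j h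
    refine ⟨y, hy, b * (s v a)⁻¹, Or.inr ⟨b, hb, s v a, hT v (List.mem_cons_self ..) a, rfl⟩, ?_⟩
    rw [← mul_assoc, ← h2, mul_inv_cancel_right]

end cup2

end Pool.Agent.TH87.FDC
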