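import Pool.Agent.TH87.FDC.Step

set_option autoImplicit false
set_option linter.unusedSectionVars false

namespace Pool.Agent.TH87.FDC

/-! ### The tree of subgroups of a group which contains its own square -/

section tree

variable {K : Type} [Group K] (θ : K × K →* K)

/-- The two embeddings. -/
def rho : Bool → (K →* K)
  | false => θ.comp (MonoidHom.inl K K)
  | true => θ.comp (MonoidHom.inr K K)

/-- The iterated embeddings. -/
def phi : List Bool → (K →* K)
  | [] => MonoidHom.id K
  | b :: w => (rho θ b).comp (phi w)

/-- Incomparable words. -/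
def perp : List Bool → List Bool → Prop
  | [], _ => False
  | _ :: _, [] => False
  | b :: v, c :: w => b ≠ c ∨ (b = c ∧ perp v w)

lemma perp_append {v w : List Bool} (x : List Bool) (h : perp v w) : perp (v ++ x) w := by
  induction v generalizing w with
  | nil => exact h.elim
  | cons b v ih =>
    rcases w with _ | ⟨c, w⟩
    · exact h.elim
    · rcases h with h | ⟨h1, h2⟩
      · exact Or.inl h
      · exact Or.inr ⟨h1, ih h2⟩

lemma perp_append_left (v : List Bool) {x y : List Bool} (h : perp x y) :
    perp (v ++ x) (v ++ y) := by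
  induction v with
  | nil => exact h
  | cons b v ih => exact Or.inr ⟨rfl, ih⟩

lemma perp_replicate {i j : ℕ} (h : i < j) :
    perp (List.replicate i true ++ [false]) (List.replicate j true ++ [false]) := by
  induction i generalizing j with
  | zero =>
    obtain ⟨j, rfl⟩ : ∃ k, j = k + 1 := ⟨j - 1, by omega⟩
    exact Or.inl (by simp)
  | succ i ih =>
    obtain ⟨j, rfl⟩ : ∃ k, j = k + 1 := ⟨j - 1, by omega⟩
    exact Or.inr ⟨rfl, ih (by omega)⟩

lemma phi_append (v x : List Bool) : phi θ (v ++ x) = (phi θ v).comp (phi θ x) := by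
  induction v with
  | nil => rfl
  | cons b v ih =>
    rw [List.cons_append, phi, ih, phi]
    rfl

lemma rho_inj (hθ : Function.Injective θ) (b : Bool) : Function.Injective (rho θ b) := by
  intro x y h
  cases b
  · exact (Prod.ext_iff.1 (hθ h)).1
  · exact (Prod.ext_iff.1 (hθ h)).2

lemma phi_inj (hθ : Function.Injective θ) (w : List Bool) : Function.Injective (phi θ w) := by
  induction w with
  | nil => exact fun _ _ h => h
  | cons b w ih => exact (rho_inj θ hθ b).comp ih

lemma rho_comm {b c : Bool} (h : b ≠ c) (x y : K) : Commute (rho θ b x) (rho θ c y) := by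
  have key : ∀ x y : K, Commute (rho θ false x) (rho θ true y) := by
    intro x y
    refine Commute.map (f := θ) ?_
    rw [Commute, SemiconjBy]
    ext <;> simp
  cases b <;> cases c
  · exact absurd rfl h
  · exact key x y
  · exact (key y x).symm
  · exact absurd rfl h

lemma phi_comm {v w : List Bool} (h : perp v w) (x y : K) :
    Commute (phi θ v x) (phi θ w y) := by
  induction v generalizing w with
  | nil => exact h.elim
  | cons b v ih =>
    rcases w with _ | ⟨c, w⟩
    · exact h.elim
    · rcases h with h | ⟨h1, h2⟩
      · exact rho_comm θ h _ _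
      · subst h1
        exact (ih h2).map (rho θ b)

/-- The subgroup generated by the images for the words in `W`. -/
def NW {A : Type} (u : A → K) (W : Set (List Bool)) : Subgroup K :=
  Subgroup.closure {x | ∃ w ∈ W, ∃ a, x = phi θ w (u a)}

lemma phi_indep (hθ : Function.Injective θ) {A : Type} (u : A → K) (v : List Bool) :
    ∀ (W : Set (List Bool)), (∀ w ∈ W, perp v w) → ∀ x, phi θ v x ∈ NW θ u W → x = 1 := by
  induction v with
  | nil =>
    intro W hW x hx
    have h1 : NW θ u W ≤ ⊥ := by
      rw [NW, Subgroup.closure_le]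
      rintro y ⟨w, hw, _⟩
      exact (hW w hw).elim
    exact Subgroup.mem_bot.1 (h1 hx)
  | cons b v ih =>
    intro W hW x hx
    set W' : Set (List Bool) := {w | (b :: w) ∈ W} with hW'
    let pb : K × K →* K := if b = false then MonoidHom.fst K K else MonoidHom.snd K K
    have hpb : ∀ c (y : K), pb ((if c = false then MonoidHom.inl K K else MonoidHom.inr K K) y) =
        if b = c then y else 1 := by
      intro c y
      cases b <;> cases c <;> simp [pb]
    have hrho : ∀ c (y : K), rho θ c y =
        θ ((if c = false then MonoidHom.inl K K else MonoidHom.inr K K) y) := by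
      intro c y
      cases c <;> rfl
    have h1 : NW θ u W ≤ ((NW θ u W').comap pb).map θ := by
      rw [NW, Subgroup.closure_le]
      rintro y ⟨w, hw, a, rfl⟩
      rcases w with _ | ⟨c, w⟩
      · exact (hW _ hw).elim
      · rw [phi, MonoidHom.comp_apply, hrho]
        refine ⟨_, ?_, rfl⟩
        simp only [Subgroup.coe_comap, Set.mem_preimage, SetLike.mem_coe]
        rw [hpb]
        by_cases hbc : b = c
        · subst hbc
          rw [if_pos rfl]
          exact Subgroup.subset_closure ⟨w, hw, a, rfl⟩
        · rw [if_neg hbc]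
          exact one_mem _
    obtain ⟨p, hp, hpx⟩ := h1 hx
    rw [phi, MonoidHom.comp_apply, hrho] at hpx
    have h2 := hθ hpx
    rw [h2] at hp
    simp only [Subgroup.coe_comap, Set.mem_preimage, SetLike.mem_coe] at hp
    rw [hpb, if_pos rfl] at hp
    refine ih W' (fun w hw => ?_) x hp
    rcases hW _ hw with h | h
    · exact absurd rfl h
    · exact h.2

/-- The tree of subgroups. -/
theorem tree_of_square (hθ : Function.Injective θ) [Infinite K] {Γ : Type} [Group Γ]
    (ι : K →* Γ) (hι : Function.Injective ι) {A : Type} (u : A → K)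
    (hu : Subgroup.closure (Set.range u) = ⊤) :
    Tree (fun (w : List Bool) (a : A) => ι (phi θ w (u a))) perp := by
  have hrange : ∀ v : List Bool, Subgroup.closure (Set.range fun a => ι (phi θ v (u a))) =
      (ι.comp (phi θ v)).range := by
    intro v
    rw [MonoidHom.range_eq_map, ← hu, MonoidHom.map_closure, ← Set.range_comp]
    rfl
  refine ⟨?_, ?_, ?_, ?_⟩
  · intro v w h a b
    exact (phi_comm θ h _ _).map ι
  · intro v W hW g hg hg'
    rw [hrange] at hg
    obtain ⟨x, rfl⟩ := hg
    have h1 : Subgroup.closure {x | ∃ w ∈ W, ∃ a, x = ι (phi θ w (u a))} ≤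
        (NW θ u {w | w ∈ W}).map ι := by
      rw [Subgroup.closure_le]
      rintro y ⟨w, hw, a, rfl⟩
      exact ⟨_, Subgroup.subset_closure ⟨w, hw, a, rfl⟩, rfl⟩
    obtain ⟨y, hy, hyx⟩ := h1 hg'
    have h2 : y = phi θ v x := hι hyx
    rw [h2] at hy
    rw [phi_indep θ hθ u v _ hW x hy, map_one]
  · intro v
    rw [hrange]
    have : ((ι.comp (phi θ v)).range : Set Γ) = Set.range (ι.comp (phi θ v)) := rfl
    rw [this]
    exact Set.infinite_range_of_injective (hι.comp (phi_inj θ hθ v))
  · intro v m
    refine ⟨(List.range m).map (fun i => v ++ (List.replicate i true ++ [false])), by simp, ?_,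
      ?_, ?_⟩
    · rw [List.pairwise_map]
      exact List.pairwise_lt_range.imp fun {i j} h => perp_append_left v (perp_replicate h)
    · intro w hw a
      obtain ⟨i, _, rfl⟩ := List.mem_map.1 hw
      rw [hrange, phi_append]
      exact ⟨phi θ (List.replicate i true ++ [false]) (u a), rfl⟩
    · intro w hw w' h
      obtain ⟨i, _, rfl⟩ := List.mem_map.1 hw
      exact perp_append _ h

end tree

/-- The whole group is never a family with vanishing cohomology. -/
theorem not_van_univ {Γ : Type} [Group Γ] {Ω A : Type} {s : Ω → A → Γ} {perp : Ω → Ω → Prop}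
    (v : Ω) : ¬ Van s perp (fun _ : Unit => (Set.univ : Set Γ)) := by
  intro h
  have h1 := h [v] (List.pairwise_singleton _ _)
  set f : Γ → Unit → ZMod 2 := fun _ _ => 1 with hf
  obtain ⟨b, _, hb⟩ := h1 (emb [v] f) (lt_emb _ _) (del_emb s _ _ (fun g => rfl))
    (ent_emb (good_MS _).zero _ _ ⟨{1}, Set.finite_singleton _, fun x j _ =>
      ⟨x, trivial, 1, rfl, (mul_one x).symm⟩⟩)
  have h2 : f = 0 := by
    have := congrArg Co.z hb
    exact this.symm
  have h3 := congrFun (congrFun h2 1) ()
  simp [hf] at h3

end Pool.Agent.TH87.FDC
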