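import Pool.Agent.TH87.FDC.Metric

set_option autoImplicit false

namespace Pool.Agent.TH87.FDC

variable {G : Type} [Group G]

/-- `g` is a product of `k` elements of `S ∪ S⁻¹`. -/
def IsWord (S : Set G) (k : ℕ) (g : G) : Prop :=
  ∃ l : List G, l.length = k ∧ (∀ x ∈ l, x ∈ S ∨ x⁻¹ ∈ S) ∧ l.prod = g

/-- The word length: the least `k` such that `g` is a product of `k` elements of `S ∪ S⁻¹`. -/
noncomputable def wordLength (S : Set G) (g : G) : ℕ := sInf {k : ℕ | IsWord S k g}

lemma IsWord.mul {S : Set G} {k l : ℕ} {g h : G} (hg : IsWord S k g) (hh : IsWord S l h) :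
    IsWord S (k + l) (g * h) := by
  obtain ⟨a, h1, h2, rfl⟩ := hg
  obtain ⟨b, h3, h4, rfl⟩ := hh
  refine ⟨a ++ b, by simp [h1, h3], fun x hx => ?_, by simp⟩
  rcases List.mem_append.1 hx with hx | hx
  · exact h2 x hx
  · exact h4 x hx

lemma IsWord.inv {S : Set G} {k : ℕ} {g : G} (hg : IsWord S k g) : IsWord S k g⁻¹ := by
  obtain ⟨a, h1, h2, rfl⟩ := hg
  refine ⟨(a.map (fun x => x⁻¹)).reverse, by simp [h1], fun x hx => ?_, ?_⟩
  · rw [List.mem_reverse, List.mem_map] at hx
    obtain ⟨y, hy, rfl⟩ := hx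
    rcases h2 y hy with h | h
    · right; rwa [inv_inv]
    · left; exact h
  · rw [List.prod_inv_reverse]

lemma exists_isWord {S : Set G} (hS : Subgroup.closure S = ⊤) (g : G) : ∃ k, IsWord S k g := by
  have hg : g ∈ Subgroup.closure S := by rw [hS]; trivial
  induction hg using Subgroup.closure_induction with
  | mem x hx => exact ⟨1, [x], rfl, by simpa using Or.inl hx, by simp⟩
  | one => exact ⟨0, [], rfl, by simp, by simp⟩
  | mul x y _ _ h1 h2 =>
    obtain ⟨k, h1⟩ := h1
    obtain ⟨l, h2⟩ := h2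
    exact ⟨k + l, h1.mul h2⟩
  | inv x _ h1 =>
    obtain ⟨k, h1⟩ := h1
    exact ⟨k, h1.inv⟩

lemma isWord_wordLength {S : Set G} (hS : Subgroup.closure S = ⊤) (g : G) :
    IsWord S (wordLength S g) g := Nat.sInf_mem (exists_isWord hS g)

lemma wordLength_le {S : Set G} {k : ℕ} {g : G} (h : IsWord S k g) : wordLength S g ≤ k :=
  Nat.sInf_le h

/-- The word metric of a group with respect to a generating set. -/
noncomputable def wordMetric (S : Set G) (hS : Subgroup.closure S = ⊤) : MetricSpace G where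
  dist x y := (wordLength S (x⁻¹ * y) : ℝ)
  dist_self x := by
    rw [inv_mul_cancel]
    have : wordLength S (1 : G) ≤ 0 := wordLength_le ⟨[], rfl, by simp, by simp⟩
    have h0 : wordLength S (1 : G) = 0 := by omega
    rw [h0, Nat.cast_zero]
  dist_comm x y := by
    have key : ∀ x y : G, wordLength S (x⁻¹ * y) ≤ wordLength S (y⁻¹ * x) := by
      intro x y
      refine wordLength_le ?_
      have := (isWord_wordLength hS (y⁻¹ * x)).inv
      rwa [mul_inv_rev, inv_inv] at this
    exact_mod_cast le_antisymm (key x y) (key y x)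
  dist_triangle x y z := by
    have h := wordLength_le ((isWord_wordLength hS (x⁻¹ * y)).mul (isWord_wordLength hS (y⁻¹ * z)))
    rw [mul_assoc, mul_inv_cancel_left] at h
    exact_mod_cast h
  eq_of_dist_eq_zero := by
    intro x y h
    have h0 : wordLength S (x⁻¹ * y) = 0 := by exact_mod_cast h
    obtain ⟨l, h1, _, h3⟩ := isWord_wordLength hS (x⁻¹ * y)
    rw [h0, List.length_eq_zero_iff] at h1
    rw [h1, List.prod_nil] at h3
    exact (inv_mul_eq_one.1 h3.symm)

lemma isWord_finite {S : Set G} (hS : S.Finite) (k : ℕ) : {g | IsWord S k g}.Finite := by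
  induction k with
  | zero =>
    refine (Set.finite_singleton (1 : G)).subset ?_
    rintro g ⟨l, h1, -, rfl⟩
    rw [List.length_eq_zero_iff] at h1
    subst h1
    simp
  | succ k ih =>
    have hT : (S ∪ (fun x => x⁻¹) '' S).Finite := hS.union (hS.image _)
    refine (hT.image2 (fun x y => x * y) ih).subset ?_
    rintro g ⟨l, h1, h2, rfl⟩
    rcases l with _ | ⟨x, l⟩
    · simp at h1
    · refine ⟨x, ?_, l.prod, ⟨l, by simpa using h1, fun y hy => h2 y (by simp [hy]), rfl⟩, by simp⟩
      rcases h2 x (by simp) with h | h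
      · exact Or.inl h
      · exact Or.inr ⟨x⁻¹, h, inv_inv x⟩

lemma properLeftInvariant_of_wordLength {S : Set G} (hS : S.Finite)
    (hS' : Subgroup.closure S = ⊤) {m : MetricSpace G}
    (hm : ∀ x y : G, m.dist x y = (wordLength S (x⁻¹ * y) : ℝ)) : ProperLeftInvariant m where
  inv g x y := by
    rw [hm, hm]
    congr 2
    group
  finite R := by
    have h1 : (⋃ k ∈ {k : ℕ | k ≤ ⌊R⌋₊}, {g : G | IsWord S k g}).Finite :=
      (Set.finite_le_nat _).biUnion fun k _ => isWord_finite hS k
    refine h1.subset ?_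
    intro x hx
    rw [Set.mem_setOf_eq, hm, inv_one, one_mul] at hx
    rw [Set.mem_iUnion₂]
    exact ⟨wordLength S x, Nat.le_floor hx, isWord_wordLength hS' x⟩

lemma properLeftInvariant_wordMetric {S : Set G} (hS : S.Finite)
    (hS' : Subgroup.closure S = ⊤) : ProperLeftInvariant (wordMetric S hS') :=
  properLeftInvariant_of_wordLength hS hS' (fun _ _ => rfl)

end Pool.Agent.TH87.FDC
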